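import Pool.Agent.T2H17.CX.Main

/-!
# MP_80d0cf_nt: the moments of all orders in `t` for almost all Dirichlet characters

For all `k ≥ 1` and `ε, η > 0` there are `C` and `N₀` such that for all `N ≥ N₀`, `T ≥ 1` and all primes
`q > N ^ (2k)`, for all but at most `C N ^ ε / T * q` of the characters `χ` modulo `q`

`|(1/T) ∫_0^T |∑_{n ≤ N} χ(n) n^{-1/2-it}|^{2k} dt - a(k) V(k) (log N)^{k²}| ≤ η (log N)^{k²}`,

with the arithmetic factor `a(k)` of the moment conjecture and the volume `V(k)` of the polytope of the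
substochastic `k × k` matrices. (Deterministic analogue of `RandomTwists`: each single `χ` has the moments in `t`.)

The asymptotics of the diagonal sum and the deterministic lemmas are from the project RT of helper98; the
variance over the characters is computed here with the orthogonality relations modulo `q`.
-/

set_option autoImplicit false

open MeasureTheory

namespace Pool.Agent.Results.MP_80d0cf_nt.AlmostAllCharacters

/-- The arithmetic factor `a(k)` of the moment conjecture: the product over the primes `p` of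
`(1 - 1/p)^(k²) ∑_m d_k(p^m)² p^(-m)`, `d_k(p^m) = binomial(m + k - 1, m)`. -/
noncomputable def a (k : ℕ) : ℝ :=
  ∏' p : Nat.Primes, ((1 - 1 / (p : ℝ)) ^ (k ^ 2) *
    ∑' m : ℕ, ((m + k - 1).choose m : ℝ) ^ 2 * (1 / (p : ℝ)) ^ m)

/-- The volume of the polytope of the nonnegative `k × k` matrices with all row sums and column sums `≤ 1`. -/
noncomputable def V (k : ℕ) : ℝ :=
  (volume {x : Fin k → Fin k → ℝ | (∀ i j, 0 ≤ x i j) ∧ (∀ i, ∑ j, x i j ≤ 1) ∧ ∀ j, ∑ i, x i j ≤ 1}).toReal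

/-- The moment `(1/T) ∫_0^T |∑_{n ≤ N} χ(n) n^{-1/2-it}|^{2k} dt`. -/
noncomputable def moment {q : ℕ} (χ : DirichletCharacter ℂ q) (k N : ℕ) (T : ℝ) : ℝ :=
  1 / T * ∫ t in (0:ℝ)..T, ‖∑ n ∈ Finset.Icc 1 N, χ (n : ZMod q) * (n : ℂ) ^ (-(1 / 2 : ℂ) - t * Complex.I)‖ ^ (2 * k)

theorem result : ∀ k : ℕ, 1 ≤ k → 0 < a k ∧ 0 < V k ∧ ∀ ε η : ℝ, 0 < ε → 0 < η → ∃ C : ℝ, 0 < C ∧ ∃ N₀ : ℕ,
    ∀ (N : ℕ) (T : ℝ) (q : ℕ), q.Prime → N₀ ≤ N → 1 ≤ T → N ^ (2 * k) < q →
    ({χ : DirichletCharacter ℂ q | η * Real.log N ^ (k ^ 2) <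
      |moment χ k N T - a k * V k * Real.log N ^ (k ^ 2)|}.ncard : ℝ) ≤ C * (N : ℝ) ^ ε / T * q :=
  fun k hk => ⟨Pool.Agent.T2H98.RT.pAKP k hk, (Pool.Agent.T2H98.RT.pPOS k hk).2,
    fun ε η hε hη => Pool.Agent.T2H17.CX.main k hk ε η hε hη⟩

end Pool.Agent.Results.MP_80d0cf_nt.AlmostAllCharacters
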