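import Pool.Agent.T2H98.RT.Mom

set_option autoImplicit false

/-!
# MP_80d0cf_nt: all moments, with a square-root error term, for almost every random twist

For a sequence `θ` of real numbers in `[0,1]` let `f = twist θ` be the completely multiplicative
function with `f(p) = e^{2πiθ_p}` and `ζ_N(f; t) = ∑_{n ≤ N} f(n) n^{-1/2-it}`.

* For almost every `θ`, for all `k ≥ 1`, `B` and `ε > 0`, uniformly for `T ≥ 1` and `N ≤ T^B`,
  `(1/T) ∫_T^{2T} |ζ_N(f; t)|^{2k} dt = A_k(N) + O(T^{-1/2+ε})`, `A_k(N) = ∑_m r_{k,N}(m)² / m`, where `r_{k,N}(m)` is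
  the number of `(n_1, …, n_k)` in `[1,N]^k` with product `m`.
* `A_k(N) ~ a(k) V(k) (log N)^{k²}`, where `a(k)` is the arithmetic factor of the moment conjecture and `V(k)` is
  the volume of the polytope of the nonnegative `k × k` matrices all of whose row sums and column sums are
  at most `1`. In particular, with `N = ⌊T⌋`,
  `(1/T) ∫_T^{2T} |ζ_{⌊T⌋}(f; t)|^{2k} dt ~ a(k) V(k) (log T)^{k²}`.
* For the single function `f = 1` (that is `θ = 0`), the last statement, with some constant `γ` in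
  place of `a(k) V(k)`, is equivalent to the open problem `m_{2k}(T) ~ γ (log T)^{k²}`
  (theorem `openProblem_iff` below; not part of the result).

The packages of the project were formalized by the team (files `Pool/Agent/T2H98/RT/`); the extension from
lengths `N ≤ T^{2-η}` to all powers of `T` and the error term (chaining) are due to helper58 and team (files
`Pool/Agent/T2H58/ST/`).
-/

open MeasureTheory Filter Topology

namespace Pool.Agent.Results.MP_80d0cf_nt.RandomTwists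

instance : IsProbabilityMeasure (volume.restrict (Set.Icc (0 : ℝ) 1)) := ⟨by simp⟩

/-- The law of a sequence of independent real numbers, each uniform in `[0, 1]`. -/
noncomputable def law : Measure (ℕ → ℝ) :=
  Measure.infinitePi fun _ : ℕ => volume.restrict (Set.Icc (0 : ℝ) 1)

/-- The function `f(n) = exp(2πi ∑_p v_p(n) θ_p)`: completely multiplicative, `f(p) = e^{2πiθ_p}`. -/
noncomputable def twist (θ : ℕ → ℝ) (n : ℕ) : ℂ :=
  Complex.exp (2 * Real.pi * (∑ p ∈ n.primeFactors, (n.factorization p : ℝ) * θ p : ℝ) * Complex.I)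

/-- `ζ_N(f; t) = ∑_{n ≤ N} f(n) n^{-1/2-it}`. -/
noncomputable def zsum (f : ℕ → ℂ) (N : ℕ) (t : ℝ) : ℂ :=
  ∑ n ∈ Finset.Icc 1 N, f n * (n : ℂ) ^ (-(1 / 2 : ℂ) - t * Complex.I)

/-- `(1/T) ∫_T^{2T} |ζ_N(f; t)|^{2k} dt`. -/
noncomputable def moment (f : ℕ → ℂ) (k N : ℕ) (T : ℝ) : ℝ :=
  1 / T * ∫ t in T..(2 * T), ‖zsum f N t‖ ^ (2 * k)

/-- The number of `(n_1, …, n_k)` in `[1,N]^k` with product `m`. -/
noncomputable def r (k N m : ℕ) : ℕ :=
  ((Fintype.piFinset fun _ : Fin k => Finset.Icc 1 N).filter fun v => ∏ i, v i = m).card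

/-- `A_k(N) = ∑_m r_{k,N}(m)² / m`. -/
noncomputable def A (k N : ℕ) : ℝ := ∑ m ∈ Finset.Icc 1 (N ^ k), (r k N m : ℝ) ^ 2 / m

/-- The arithmetic factor `a(k)` of the moment conjecture. -/
noncomputable def a (k : ℕ) : ℝ :=
  ∏' p : Nat.Primes, ((1 - 1 / (p : ℝ)) ^ (k ^ 2) *
    ∑' m : ℕ, ((m + k - 1).choose m : ℝ) ^ 2 * (1 / (p : ℝ)) ^ m)

/-- The volume of the polytope of the nonnegative `k × k` matrices with all row sums and column sums `≤ 1`. -/
noncomputable def V (k : ℕ) : ℝ :=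
  (volume {x : Fin k → Fin k → ℝ | (∀ i j, 0 ≤ x i j) ∧ (∀ i, ∑ j, x i j ≤ 1) ∧ ∀ j, ∑ i, x i j ≤ 1}).toReal

open Pool.Agent.T2H98.RT in
lemma twist_eq (θ : ℕ → ℝ) : twist θ = tw θ := rfl

open Pool.Agent.T2H98.RT in
lemma zsum_eq (θ : ℕ → ℝ) (N : ℕ) (t : ℝ) : zsum (twist θ) N t = S θ N t := rfl

open Pool.Agent.T2H98.RT in
lemma law_eq : law = P := rfl

open Pool.Agent.T2H98.RT in
lemma const_eq (k : ℕ) : a k * V k = gam k := rfl

lemma A_eq (k N : ℕ) : A k N = Pool.Agent.T2H98.RT.A k N := rfl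

/-- `twist θ` is completely multiplicative and unimodular, with value `e^{2πiθ_p}` at `p`, and `twist 0 = 1`. -/
lemma twist_facts : (∀ (θ : ℕ → ℝ) (m n : ℕ), m ≠ 0 → n ≠ 0 → twist θ (m * n) = twist θ m * twist θ n) ∧
    (∀ (θ : ℕ → ℝ) (n : ℕ), ‖twist θ n‖ = 1) ∧
    (∀ (θ : ℕ → ℝ) (p : ℕ), p.Prime → twist θ p = Complex.exp (2 * Real.pi * θ p * Complex.I)) ∧
    ∀ n : ℕ, twist 0 n = 1 := by
  refine ⟨fun θ m n hm hn => Pool.Agent.T2H98.RT.pMUL.1 θ m n hm hn,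
    fun θ n => Pool.Agent.T2H98.RT.pMUL.2.1 θ n, fun θ p hp => ?_, fun n => ?_⟩
  · unfold twist
    rw [hp.primeFactors, Finset.sum_singleton, hp.factorization_self]
    norm_num
  · unfold twist
    simp

/-- For `f = 1` the statement about `N = ⌊T⌋` is equivalent to the open problem. -/
theorem openProblem_iff (k : ℕ) (γ : ℝ) (hk : 1 ≤ k) :
    Tendsto (fun T : ℝ => 1 / T * (∫ t in (0:ℝ)..T, ‖riemannZeta (1 / 2 + t * Complex.I)‖ ^ (2 * k)) /
      Real.log T ^ (k ^ 2)) atTop (𝓝 γ) ↔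
    Tendsto (fun T : ℝ => moment (twist 0) k ⌊T⌋₊ T / Real.log T ^ (k ^ 2)) atTop (𝓝 γ) :=
  Pool.Agent.T2H98.RT.vEQV k γ hk

theorem result :
    (∀ k : ℕ, 1 ≤ k → 0 < a k ∧ 0 < V k ∧
      Tendsto (fun N : ℕ => A k N / Real.log N ^ (k ^ 2)) atTop (𝓝 (a k * V k))) ∧
    ∀ᵐ θ ∂law, ∀ k : ℕ, 1 ≤ k →
      (∀ (B : ℕ) (ε : ℝ), 0 < ε → ∃ K : ℝ, 0 < K ∧ ∀ (T : ℝ) (N : ℕ), 1 ≤ T → (N : ℝ) ≤ T ^ B →
        |moment (twist θ) k N T - A k N| ≤ K * T ^ (ε - 1 / 2)) ∧
      Tendsto (fun T : ℝ => moment (twist θ) k ⌊T⌋₊ T / Real.log T ^ (k ^ 2)) atTop (𝓝 (a k * V k)) := by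
  have hlimA : ∀ k : ℕ, 1 ≤ k → Tendsto (fun N : ℕ => A k N / Real.log N ^ (k ^ 2)) atTop (𝓝 (a k * V k)) :=
    fun k hk => Pool.Agent.T2H98.RT.vLIM k hk
  refine ⟨fun k hk => ⟨Pool.Agent.T2H98.RT.pAKP k hk, (Pool.Agent.T2H98.RT.pPOS k hk).2, hlimA k hk⟩, ?_⟩
  have h' : ∀ᵐ θ ∂Pool.Agent.T2H98.RT.P, ∀ k : ℕ, 1 ≤ k → ∀ (B : ℕ) (ε : ℝ), 0 < ε → ∃ K : ℝ, 0 < K ∧
      ∀ (T : ℝ) (N : ℕ), 1 ≤ T → (N : ℝ) ≤ T ^ B →
      |1 / T * (∫ t in T..(2 * T), ‖Pool.Agent.T2H98.RT.S θ N t‖ ^ (2 * k)) - Pool.Agent.T2H98.RT.A k N| ≤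
        K * T ^ (ε - 1 / 2) := by
    rw [ae_all_iff]
    intro k
    by_cases hk : 1 ≤ k
    · filter_upwards [Pool.Agent.T2H98.RT.sqr2 k hk] with θ hθ _
      exact hθ
    · exact Filter.Eventually.of_forall fun θ hk' => absurd hk' hk
  rw [law_eq]
  filter_upwards [h'] with θ hθ0 k hk
  have hθ : ∀ (B : ℕ) (ε : ℝ), 0 < ε → ∃ K : ℝ, 0 < K ∧ ∀ (T : ℝ) (N : ℕ), 1 ≤ T → (N : ℝ) ≤ T ^ B →
      |moment (twist θ) k N T - A k N| ≤ K * T ^ (ε - 1 / 2) := fun B ε hε => hθ0 k hk B ε hε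
  refine ⟨hθ, ?_⟩
  obtain ⟨K, hK, h1⟩ := hθ 1 (1 / 4) (by norm_num)
  have hfl : Tendsto (fun T : ℝ => ⌊T⌋₊) atTop atTop := tendsto_nat_floor_atTop
  have hlog : Tendsto (fun T : ℝ => Real.log ⌊T⌋₊ / Real.log T) atTop (𝓝 1) := by
    have hb : Tendsto (fun T : ℝ => 1 - Real.log 2 / Real.log T) atTop (𝓝 1) := by
      have : Tendsto (fun T : ℝ => Real.log 2 / Real.log T) atTop (𝓝 0) :=
        tendsto_const_nhds.div_atTop Real.tendsto_log_atTop
      simpa using this.const_sub 1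
    refine tendsto_of_tendsto_of_tendsto_of_le_of_le' hb tendsto_const_nhds ?_ ?_
    · filter_upwards [eventually_ge_atTop 2] with T hT
      have hl : 0 < Real.log T := Real.log_pos (by linarith)
      have hfl : T / 2 ≤ ⌊T⌋₊ := by
        have := Nat.lt_floor_add_one T
        linarith
      have h2 : Real.log (T / 2) ≤ Real.log ⌊T⌋₊ := Real.log_le_log (by linarith) hfl
      rw [Real.log_div (by linarith) (by norm_num)] at h2
      rw [le_div_iff₀ hl, sub_mul, one_mul, div_mul_cancel₀ _ hl.ne']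
      exact h2
    · filter_upwards [eventually_ge_atTop 2] with T hT
      have hl : 0 < Real.log T := Real.log_pos (by linarith)
      have hfl : (1:ℝ) ≤ ⌊T⌋₊ := by
        exact_mod_cast (Nat.le_floor (by push_cast; linarith) : 1 ≤ ⌊T⌋₊)
      rw [div_le_one hl]
      exact Real.log_le_log (by linarith) (Nat.floor_le (by linarith))
  -- the main term
  have hA1 : Tendsto (fun T : ℝ => A k ⌊T⌋₊ / Real.log T ^ (k ^ 2)) atTop (𝓝 (a k * V k)) := by
    have h3 := ((hlimA k hk).comp hfl).mul (hlog.pow (k ^ 2))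
    rw [one_pow, mul_one] at h3
    refine h3.congr' ?_
    filter_upwards [eventually_ge_atTop 3] with T hT
    have hl : 0 < Real.log ⌊T⌋₊ := by
      refine Real.log_pos ?_
      have : ((2:ℕ):ℝ) ≤ ⌊T⌋₊ := by exact_mod_cast Nat.le_floor (by push_cast; linarith)
      push_cast at this
      linarith
    have hl2 : 0 < Real.log T := Real.log_pos (by linarith)
    simp only [Function.comp_apply]
    rw [div_pow]
    field_simp
  -- the error term
  have hE : Tendsto (fun T : ℝ => (moment (twist θ) k ⌊T⌋₊ T - A k ⌊T⌋₊) / Real.log T ^ (k ^ 2)) atTop (𝓝 0) := by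
    have h4 : Tendsto (fun T : ℝ => K * T ^ (-(1 / 4) : ℝ)) atTop (𝓝 0) := by
      have := (tendsto_rpow_neg_atTop (by norm_num : (0:ℝ) < 1 / 4)).const_mul K
      simpa using this
    refine squeeze_zero_norm' ?_ h4
    filter_upwards [eventually_ge_atTop (Real.exp 1)] with T hT
    have hT1 : 1 ≤ T := le_trans (by linarith [Real.add_one_le_exp (1:ℝ)]) hT
    have hl : 1 ≤ Real.log T := by
      rw [Real.le_log_iff_exp_le (by linarith)]
      exact hT
    have hlp : 1 ≤ Real.log T ^ (k ^ 2) := one_le_pow₀ hl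
    have h5 := h1 T ⌊T⌋₊ hT1 (by rw [pow_one]; exact Nat.floor_le (by linarith))
    rw [show (1 / 4 : ℝ) - 1 / 2 = -(1 / 4) by norm_num] at h5
    rw [Real.norm_eq_abs, abs_div, abs_of_pos (by linarith : 0 < Real.log T ^ (k ^ 2))]
    exact (div_le_self (abs_nonneg _) hlp).trans h5
  have hfin := hA1.add hE
  rw [add_zero] at hfin
  refine hfin.congr fun T => ?_
  rw [← add_div]
  congr 1
  ring

end Pool.Agent.Results.MP_80d0cf_nt.RandomTwists
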