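import Pool.Agent.T2H98.RS.All

set_option autoImplicit false

/-!
# MP_80d0cf_nt: all moments of the Riemann-Siegel sum of zeta for almost every random twist

For a sequence `θ` of real numbers in `[0,1]` let `f = twist θ` be the completely multiplicative
function with `f(p) = e^{2πiθ_p}`, and let
`Z_f(t) = 2 Re (e^{iφ(t)} ∑_{n ≤ √(t/2π)} f(n) n^{-1/2-it})`, `φ(t) = (t/2) log(t/2πe) - π/8`.
By the Riemann-Siegel formula `Z_1(t)` is Hardy's function `Z(t)`, `|Z(t)| = |ζ(1/2+it)|`, up to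
`O(t^{-1/4})`, so for `f = 1` the mean value of `Z_f^{2k}` is that of the problem.

For almost every `θ`, for all `k ≥ 1`,
`(1/T) ∫_0^T Z_f(t)^{2k} dt ~ binom(2k,k) 2^{-k²} a(k) V(k) (log T)^{k²}`, where `a(k)` is the arithmetic
factor of the moment conjecture and `V(k)` is the volume of the polytope of the nonnegative
`k × k` matrices all of whose row sums and column sums are at most `1`.

The packages of the project were formalized by the team (files `Pool/Agent/T2H98/RS/`, `Pool/Agent/T2H98/RT/`).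
-/

open MeasureTheory Filter Topology

namespace Pool.Agent.Results.MP_80d0cf_nt.RiemannSiegelTwists

instance : IsProbabilityMeasure (volume.restrict (Set.Icc (0 : ℝ) 1)) := ⟨by simp⟩

/-- The law of a sequence of independent real numbers, each uniform in `[0, 1]`. -/
noncomputable def law : Measure (ℕ → ℝ) :=
  Measure.infinitePi fun _ : ℕ => volume.restrict (Set.Icc (0 : ℝ) 1)

/-- The function `f(n) = exp(2πi ∑_p v_p(n) θ_p)`: completely multiplicative, `f(p) = e^{2πiθ_p}`. -/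
noncomputable def twist (θ : ℕ → ℝ) (n : ℕ) : ℂ :=
  Complex.exp (2 * Real.pi * (∑ p ∈ n.primeFactors, (n.factorization p : ℝ) * θ p : ℝ) * Complex.I)

/-- The phase `φ(t) = (t/2) log(t/2πe) - π/8` of the Riemann-Siegel formula. -/
noncomputable def phase (t : ℝ) : ℝ := t / 2 * Real.log (t / (2 * Real.pi * Real.exp 1)) - Real.pi / 8

/-- `Z_f(t) = 2 Re (e^{iφ(t)} ∑_{n ≤ √(t/2π)} f(n) n^{-1/2-it})`. -/
noncomputable def Z (f : ℕ → ℂ) (t : ℝ) : ℝ :=
  2 * (Complex.exp (phase t * Complex.I) *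
    ∑ n ∈ Finset.Icc 1 ⌊Real.sqrt (t / (2 * Real.pi))⌋₊, f n * (n : ℂ) ^ (-(1 / 2 : ℂ) - t * Complex.I)).re

/-- `(1/T) ∫_0^T Z_f(t)^{2k} dt`. -/
noncomputable def moment (f : ℕ → ℂ) (k : ℕ) (T : ℝ) : ℝ := 1 / T * ∫ t in (0:ℝ)..T, Z f t ^ (2 * k)

/-- The arithmetic factor `a(k)` of the moment conjecture. -/
noncomputable def a (k : ℕ) : ℝ :=
  ∏' p : Nat.Primes, ((1 - 1 / (p : ℝ)) ^ (k ^ 2) *
    ∑' m : ℕ, ((m + k - 1).choose m : ℝ) ^ 2 * (1 / (p : ℝ)) ^ m)

/-- The volume of the polytope of the nonnegative `k × k` matrices with all row sums and column sums `≤ 1`. -/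
noncomputable def V (k : ℕ) : ℝ :=
  (volume {x : Fin k → Fin k → ℝ | (∀ i j, 0 ≤ x i j) ∧ (∀ i, ∑ j, x i j ≤ 1) ∧ ∀ j, ∑ i, x i j ≤ 1}).toReal

open Pool.Agent.T2H98 in
lemma moment_eq (θ : ℕ → ℝ) (k : ℕ) (T : ℝ) : moment (twist θ) k T = RS.M θ k T := rfl

theorem result :
    (∀ k : ℕ, 1 ≤ k → 0 < a k ∧ 0 < V k) ∧
    ∀ᵐ θ ∂law, ∀ k : ℕ, 1 ≤ k →
      Tendsto (fun T : ℝ => moment (twist θ) k T / Real.log T ^ (k ^ 2)) atTop
        (𝓝 (((2 * k).choose k : ℝ) / 2 ^ (k ^ 2) * a k * V k)) := by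
  refine ⟨fun k hk => ⟨Pool.Agent.T2H98.RT.pAKP k hk, (Pool.Agent.T2H98.RT.pPOS k hk).2⟩, ?_⟩
  have h := Pool.Agent.T2H98.RS.vFINR
  have hlaw : law = Pool.Agent.T2H98.RT.P := rfl
  rw [hlaw]
  filter_upwards [h] with θ hθ k hk
  have h1 := hθ k hk
  have e : ((2 * k).choose k : ℝ) / 2 ^ (k ^ 2) * a k * V k =
      ((2 * k).choose k : ℝ) * (Pool.Agent.T2H98.RT.gam k / 2 ^ (k ^ 2)) := by
    have : Pool.Agent.T2H98.RT.gam k = a k * V k := rfl
    rw [this]
    ring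
  rw [e]
  exact h1

end Pool.Agent.Results.MP_80d0cf_nt.RiemannSiegelTwists
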